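import Mathlib
import Pool.Agent.H.MP_d06cab_co.Final

namespace Pool.Agent.Results.MP_d06cab_co.Yes

/-- A `d`-arrangement: `n` distinct hyperplanes of projective `d`-space, the kernels of nonzero
linear forms on `ℝ^(d+1)`, with no common point. -/
structure Arr (d : ℕ) where
  n : ℕ
  a : Fin n → (Fin (d + 1) → ℝ) →ₗ[ℝ] ℝ
  ne_zero : ∀ i, a i ≠ 0
  distinct : Function.Injective fun i => LinearMap.ker (a i)
  no_common : ∀ x, (∀ i, a i x = 0) → x = 0

/-- The face through the projective point `[x]`, as a set of vectors: all `y` whose sign vector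
is that of `x` or its negative. -/
def face {d : ℕ} (A : Arr d) (x : Fin (d + 1) → ℝ) : Set (Fin (d + 1) → ℝ) :=
  {y | (∀ i, SignType.sign (A.a i y) = SignType.sign (A.a i x)) ∨
    (∀ i, SignType.sign (A.a i y) = -SignType.sign (A.a i x))}

/-- The set of all faces. -/
def faces {d : ℕ} (A : Arr d) : Set (Set (Fin (d + 1) → ℝ)) := {F | ∃ x, x ≠ 0 ∧ F = face A x}

/-- The cell-adjacency graph: vertices are the `d`-faces (linear span of dimension `d+1`), two
distinct ones are adjacent iff some `(d-1)`-face lies in the closure of both. -/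
def cellGraph {d : ℕ} (A : Arr d) :
    SimpleGraph {F : Set (Fin (d + 1) → ℝ) //
      F ∈ faces A ∧ Module.finrank ℝ (Submodule.span ℝ F) = d + 1} where
  Adj F G := F ≠ G ∧ ∃ K ∈ faces A, Module.finrank ℝ (Submodule.span ℝ K) = d ∧
    K ⊆ closure F.1 ∧ K ⊆ closure G.1
  symm := ⟨fun _ _ ⟨h, K, h1, h2, h3, h4⟩ => ⟨h.symm, K, h1, h2, h4, h3⟩⟩
  loopless := ⟨fun _ h => h.1 rfl⟩

theorem result (d : ℕ) (hd : 3 ≤ d) (A B : Arr d) (h : Nonempty (cellGraph A ≃g cellGraph B)) :
    ∃ β : faces A ≃ faces B, ∀ F F' : faces A,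
      F.1 ⊆ closure F'.1 ↔ (β F).1 ⊆ closure (β F').1 := by
  obtain ⟨φ⟩ := h
  exact Pool.Agent.H.MP_d06cab_co.main (d := d)
    (Pool.Agent.H.MP_d06cab_co.good_of A.ne_zero A.distinct A.no_common)
    (Pool.Agent.H.MP_d06cab_co.good_of B.ne_zero B.distinct B.no_common) (by simp) hd φ

end Pool.Agent.Results.MP_d06cab_co.Yes
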